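import Mathlib

namespace Pool.Agent.Helper63.ProjAlg

/-- The horizontal axis of the plane. -/
def axisX : Set (ℝ × ℝ) := {p | p.2 = 0}

/-- The vertical axis of the plane. -/
def axisY : Set (ℝ × ℝ) := {p | p.1 = 0}

/-- Projection to the horizontal axis. -/
def projX (S : Set (ℝ × ℝ)) : Set (ℝ × ℝ) := {p | p.2 = 0 ∧ ∃ y : ℝ, (p.1, y) ∈ S}

/-- Projection to the vertical axis. -/
def projY (S : Set (ℝ × ℝ)) : Set (ℝ × ℝ) := {p | p.1 = 0 ∧ ∃ x : ℝ, (x, p.2) ∈ S}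

/-- The product of a subset of the horizontal axis and a subset of the vertical axis. -/
def tensor (A B : Set (ℝ × ℝ)) : Set (ℝ × ℝ) := {p | (p.1, (0 : ℝ)) ∈ A ∧ ((0 : ℝ), p.2) ∈ B}

/-- Projective algebras of plane sets. -/
structure IsProjectiveAlgebra (F : Set (Set (ℝ × ℝ))) : Prop where
  empty_mem : ∅ ∈ F
  compl_mem : ∀ S ∈ F, Sᶜ ∈ F
  union_mem : ∀ S ∈ F, ∀ T ∈ F, S ∪ T ∈ F
  projX_mem : ∀ S ∈ F, projX S ∈ F
  projY_mem : ∀ S ∈ F, projY S ∈ F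
  tensor_mem : ∀ A ∈ F, ∀ B ∈ F, A ⊆ axisX → B ⊆ axisY → tensor A B ∈ F

/-- The projective algebra generated by a family of plane sets. -/
def generated (G : Set (Set (ℝ × ℝ))) : Set (Set (ℝ × ℝ)) :=
  ⋂₀ {F | IsProjectiveAlgebra F ∧ G ⊆ F}

/-- Isomorphisms: bijections commuting with all the operations. -/
structure IsIso {F G : Set (Set (ℝ × ℝ))} (φ : F ≃ G) : Prop where
  compl : ∀ S T : F, (T : Set (ℝ × ℝ)) = (S : Set (ℝ × ℝ))ᶜ →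
    (φ T : Set (ℝ × ℝ)) = (φ S : Set (ℝ × ℝ))ᶜ
  union : ∀ S T U : F, (U : Set (ℝ × ℝ)) = (S : Set (ℝ × ℝ)) ∪ T →
    (φ U : Set (ℝ × ℝ)) = (φ S : Set (ℝ × ℝ)) ∪ φ T
  projX : ∀ S T : F, (T : Set (ℝ × ℝ)) = projX S → (φ T : Set (ℝ × ℝ)) = projX (φ S)
  projY : ∀ S T : F, (T : Set (ℝ × ℝ)) = projY S → (φ T : Set (ℝ × ℝ)) = projY (φ S)
  tensor : ∀ A B C : F, (A : Set (ℝ × ℝ)) ⊆ axisX → (B : Set (ℝ × ℝ)) ⊆ axisY →
    (C : Set (ℝ × ℝ)) = tensor A B → (φ C : Set (ℝ × ℝ)) = tensor (φ A) (φ B)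

end Pool.Agent.Helper63.ProjAlg
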