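import Mathlib
import Pool.Agent.Helper63.ProjAlg.Defs

namespace Pool.Agent.Helper63.ProjAlg

/-- Terms in the language of projective algebras. -/
inductive Tm (k : ℕ) : Type
  | gen : Fin k → Tm k
  | empty : Tm k
  | compl : Tm k → Tm k
  | union : Tm k → Tm k → Tm k
  | pX : Tm k → Tm k
  | pY : Tm k → Tm k
  | tens : Tm k → Tm k → Tm k
  deriving Countable

/-- Evaluation of terms. -/
def ev {k : ℕ} (S : Fin k → Set (ℝ × ℝ)) : Tm k → Set (ℝ × ℝ)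
  | .gen i => S i
  | .empty => ∅
  | .compl s => (ev S s)ᶜ
  | .union s t => ev S s ∪ ev S t
  | .pX s => projX (ev S s)
  | .pY s => projY (ev S s)
  | .tens s t => tensor (ev S s ∩ axisX) (ev S t ∩ axisY)

namespace Tm
def inter {k : ℕ} (s t : Tm k) : Tm k := .compl (.union (.compl s) (.compl t))
def X {k : ℕ} : Tm k := .pX (.compl .empty)
def Y {k : ℕ} : Tm k := .pY (.compl .empty)
end Tm

theorem projX_univ : projX Set.univ = axisX := by
  ext p; simp [projX, axisX]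

theorem projY_univ : projY Set.univ = axisY := by
  ext p; simp [projY, axisY]

section
variable {k : ℕ} (S : Fin k → Set (ℝ × ℝ))

theorem ev_inter (s t : Tm k) : ev S (s.inter t) = ev S s ∩ ev S t := by
  simp [Tm.inter, ev, Set.compl_union]

theorem ev_pX (s : Tm k) : ev S s.pX = projX (ev S s) := rfl

theorem ev_pY (s : Tm k) : ev S s.pY = projY (ev S s) := rfl

theorem ev_compl (s : Tm k) : ev S s.compl = (ev S s)ᶜ := rfl

theorem ev_X : ev S Tm.X = axisX := by simp [Tm.X, ev, projX_univ]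

theorem ev_Y : ev S Tm.Y = axisY := by simp [Tm.Y, ev, projY_univ]

end

theorem IsProjectiveAlgebra.inter_mem {F : Set (Set (ℝ × ℝ))} (h : IsProjectiveAlgebra F)
    {S T : Set (ℝ × ℝ)} (hS : S ∈ F) (hT : T ∈ F) : S ∩ T ∈ F := by
  have := h.compl_mem _ (h.union_mem _ (h.compl_mem _ hS) _ (h.compl_mem _ hT))
  rwa [Set.compl_union, compl_compl, compl_compl] at this

theorem IsProjectiveAlgebra.axisX_mem {F : Set (Set (ℝ × ℝ))} (h : IsProjectiveAlgebra F) :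
    axisX ∈ F := by
  have := h.projX_mem _ (h.compl_mem _ h.empty_mem)
  rwa [Set.compl_empty, projX_univ] at this

theorem IsProjectiveAlgebra.axisY_mem {F : Set (Set (ℝ × ℝ))} (h : IsProjectiveAlgebra F) :
    axisY ∈ F := by
  have := h.projY_mem _ (h.compl_mem _ h.empty_mem)
  rwa [Set.compl_empty, projY_univ] at this

theorem ev_mem {k : ℕ} (S : Fin k → Set (ℝ × ℝ)) {F : Set (Set (ℝ × ℝ))}
    (h : IsProjectiveAlgebra F) (hS : Set.range S ⊆ F) (t : Tm k) : ev S t ∈ F := by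
  induction t with
  | gen i => exact hS ⟨i, rfl⟩
  | empty => exact h.empty_mem
  | compl s ih => exact h.compl_mem _ ih
  | union s t ih1 ih2 => exact h.union_mem _ ih1 _ ih2
  | pX s ih => exact h.projX_mem _ ih
  | pY s ih => exact h.projY_mem _ ih
  | tens s t ih1 ih2 =>
    exact h.tensor_mem _ (h.inter_mem ih1 h.axisX_mem) _ (h.inter_mem ih2 h.axisY_mem)
      Set.inter_subset_right Set.inter_subset_right

theorem range_ev_alg {k : ℕ} (S : Fin k → Set (ℝ × ℝ)) : IsProjectiveAlgebra (Set.range (ev S)) where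
  empty_mem := ⟨.empty, rfl⟩
  compl_mem := by rintro _ ⟨s, rfl⟩; exact ⟨.compl s, rfl⟩
  union_mem := by rintro _ ⟨s, rfl⟩ _ ⟨t, rfl⟩; exact ⟨.union s t, rfl⟩
  projX_mem := by rintro _ ⟨s, rfl⟩; exact ⟨.pX s, rfl⟩
  projY_mem := by rintro _ ⟨s, rfl⟩; exact ⟨.pY s, rfl⟩
  tensor_mem := by
    rintro _ ⟨s, rfl⟩ _ ⟨t, rfl⟩ h1 h2
    refine ⟨.tens s t, ?_⟩
    rw [ev, Set.inter_eq_left.2 h1, Set.inter_eq_left.2 h2]

theorem generated_eq {k : ℕ} (S : Fin k → Set (ℝ × ℝ)) :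
    generated (Set.range S) = Set.range (ev S) := by
  apply Set.Subset.antisymm
  · intro A hA
    exact hA _ ⟨range_ev_alg S, by rintro _ ⟨i, rfl⟩; exact ⟨.gen i, rfl⟩⟩
  · rintro _ ⟨t, rfl⟩ F ⟨hF, hSF⟩
    exact ev_mem S hF hSF t

/-- The equational theory of a tuple of plane sets. -/
def Th {k : ℕ} (S : Fin k → Set (ℝ × ℝ)) : Set (Tm k × Tm k) := {p | ev S p.1 = ev S p.2}

theorem exists_iso_of_th {k : ℕ} (S S' : Fin k → Set (ℝ × ℝ)) (h : Th S = Th S') :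
    ∃ φ : Set.range (ev S) ≃ Set.range (ev S'), IsIso φ := by
  have h1 : ∀ s t, ev S s = ev S t ↔ ev S' s = ev S' t := fun s t => by
    have : (s, t) ∈ Th S ↔ (s, t) ∈ Th S' := by rw [h]
    exact this
  let f : Set.range (ev S) → Set.range (ev S') := fun A => ⟨ev S' A.2.choose, _, rfl⟩
  let g : Set.range (ev S') → Set.range (ev S) := fun A => ⟨ev S A.2.choose, _, rfl⟩
  have hf : ∀ (A : Set.range (ev S)) t, (A : Set (ℝ × ℝ)) = ev S t →
      (f A : Set (ℝ × ℝ)) = ev S' t := by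
    intro A t hA
    exact (h1 _ _).1 (A.2.choose_spec.trans hA)
  have hg : ∀ (A : Set.range (ev S')) t, (A : Set (ℝ × ℝ)) = ev S' t →
      (g A : Set (ℝ × ℝ)) = ev S t := by
    intro A t hA
    exact (h1 _ _).2 (A.2.choose_spec.trans hA)
  let φ : Set.range (ev S) ≃ Set.range (ev S') := ⟨f, g, by
    rintro ⟨_, t, rfl⟩
    apply Subtype.ext
    rw [hg _ t (hf _ t rfl)], by
    rintro ⟨_, t, rfl⟩
    apply Subtype.ext
    rw [hf _ t (hg _ t rfl)]⟩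
  have hφ : ∀ (A : Set.range (ev S)) t, (A : Set (ℝ × ℝ)) = ev S t →
      (φ A : Set (ℝ × ℝ)) = ev S' t := hf
  refine ⟨φ, ?_, ?_, ?_, ?_, ?_⟩
  · rintro ⟨_, s, rfl⟩ T hT
    rw [hφ T (.compl s) hT, hφ _ s rfl]; rfl
  · rintro ⟨_, s, rfl⟩ ⟨_, t, rfl⟩ U hU
    rw [hφ U (.union s t) hU, hφ _ s rfl, hφ _ t rfl]; rfl
  · rintro ⟨_, s, rfl⟩ T hT
    rw [hφ T (.pX s) hT, hφ _ s rfl]; rfl
  · rintro ⟨_, s, rfl⟩ T hT
    rw [hφ T (.pY s) hT, hφ _ s rfl]; rfl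
  · rintro ⟨_, s, rfl⟩ ⟨_, t, rfl⟩ U hs ht hU
    simp only at hs ht hU
    have h2 : ev S' s ⊆ axisX := by
      have : ev S (s.inter Tm.X) = ev S s := by rw [ev_inter, ev_X, Set.inter_eq_left.2 hs]
      have := (h1 _ _).1 this
      rw [ev_inter, ev_X, Set.inter_eq_left] at this
      exact this
    have h3 : ev S' t ⊆ axisY := by
      have : ev S (t.inter Tm.Y) = ev S t := by rw [ev_inter, ev_Y, Set.inter_eq_left.2 ht]
      have := (h1 _ _).1 this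
      rw [ev_inter, ev_Y, Set.inter_eq_left] at this
      exact this
    have h4 : (U : Set (ℝ × ℝ)) = ev S (.tens s t) := by
      rw [hU, ev, Set.inter_eq_left.2 hs, Set.inter_eq_left.2 ht]
    rw [hφ U _ h4, hφ _ s rfl, hφ _ t rfl, ev, Set.inter_eq_left.2 h2, Set.inter_eq_left.2 h3]

theorem iso_ev {k : ℕ} {F G : Set (Set (ℝ × ℝ))} (hF : IsProjectiveAlgebra F)
    (hG : IsProjectiveAlgebra G) (φ : F ≃ G) (hφ : IsIso φ) (S : Fin k → Set (ℝ × ℝ))
    (hS : ∀ i, S i ∈ F) (t : Tm k) (A : F) (hA : (A : Set (ℝ × ℝ)) = ev S t) :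
    (φ A : Set (ℝ × ℝ)) = ev (fun i => (φ ⟨S i, hS i⟩ : Set (ℝ × ℝ))) t := by
  have hempty : ∀ A : F, (A : Set (ℝ × ℝ)) = ∅ → (φ A : Set (ℝ × ℝ)) = ∅ := by
    intro A hA
    obtain ⟨B, hB⟩ := φ.surjective ⟨∅, hG.empty_mem⟩
    have := hφ.union B A B (by rw [hA, Set.union_empty])
    rw [hB] at this
    simpa using this.symm
  have hinter : ∀ A B C : F, (C : Set (ℝ × ℝ)) = (A : Set (ℝ × ℝ)) ∩ B →
      (φ C : Set (ℝ × ℝ)) = (φ A : Set (ℝ × ℝ)) ∩ φ B := by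
    intro A B C hC
    have e1 := hφ.compl A ⟨_, hF.compl_mem _ A.2⟩ rfl
    have e2 := hφ.compl B ⟨_, hF.compl_mem _ B.2⟩ rfl
    have e3 := hφ.union ⟨_, hF.compl_mem _ A.2⟩ ⟨_, hF.compl_mem _ B.2⟩
      ⟨_, hF.union_mem _ (hF.compl_mem _ A.2) _ (hF.compl_mem _ B.2)⟩ rfl
    have e4 := hφ.compl ⟨_, hF.union_mem _ (hF.compl_mem _ A.2) _ (hF.compl_mem _ B.2)⟩ C
      (by rw [hC, Set.compl_union, compl_compl, compl_compl])
    rw [e4, e3, e1, e2, Set.compl_union, compl_compl, compl_compl]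
  have huniv : ∀ A : F, (A : Set (ℝ × ℝ)) = Set.univ → (φ A : Set (ℝ × ℝ)) = Set.univ := by
    intro A hA
    rw [hφ.compl ⟨∅, hF.empty_mem⟩ A (by rw [hA, Set.compl_empty]), hempty _ rfl, Set.compl_empty]
  have hX : ∀ A : F, (A : Set (ℝ × ℝ)) = axisX → (φ A : Set (ℝ × ℝ)) = axisX := by
    intro A hA
    have hu : (Set.univ : Set (ℝ × ℝ)) ∈ F := by
      rw [← Set.compl_empty]; exact hF.compl_mem _ hF.empty_mem
    rw [hφ.projX ⟨Set.univ, hu⟩ A (by rw [hA, projX_univ]), huniv _ rfl, projX_univ]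
  have hY : ∀ A : F, (A : Set (ℝ × ℝ)) = axisY → (φ A : Set (ℝ × ℝ)) = axisY := by
    intro A hA
    have hu : (Set.univ : Set (ℝ × ℝ)) ∈ F := by
      rw [← Set.compl_empty]; exact hF.compl_mem _ hF.empty_mem
    rw [hφ.projY ⟨Set.univ, hu⟩ A (by rw [hA, projY_univ]), huniv _ rfl, projY_univ]
  have hev : ∀ t, ev S t ∈ F := ev_mem S hF (by rintro _ ⟨i, rfl⟩; exact hS i)
  induction t generalizing A with
  | gen i =>
    have : A = ⟨S i, hS i⟩ := Subtype.ext hA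
    rw [this]; rfl
  | empty => exact hempty A hA
  | compl s ih => rw [hφ.compl ⟨_, hev s⟩ A hA, ih ⟨_, hev s⟩ rfl]; rfl
  | union s t ih1 ih2 =>
    rw [hφ.union ⟨_, hev s⟩ ⟨_, hev t⟩ A hA, ih1 ⟨_, hev s⟩ rfl, ih2 ⟨_, hev t⟩ rfl]; rfl
  | pX s ih => rw [hφ.projX ⟨_, hev s⟩ A hA, ih ⟨_, hev s⟩ rfl]; rfl
  | pY s ih => rw [hφ.projY ⟨_, hev s⟩ A hA, ih ⟨_, hev s⟩ rfl]; rfl
  | tens s t ih1 ih2 =>
    have m1 : ev S s ∩ axisX ∈ F := hF.inter_mem (hev s) hF.axisX_mem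
    have m2 : ev S t ∩ axisY ∈ F := hF.inter_mem (hev t) hF.axisY_mem
    rw [hφ.tensor ⟨_, m1⟩ ⟨_, m2⟩ A Set.inter_subset_right Set.inter_subset_right hA,
      hinter ⟨_, hev s⟩ ⟨_, hF.axisX_mem⟩ ⟨_, m1⟩ rfl, hX ⟨_, hF.axisX_mem⟩ rfl,
      hinter ⟨_, hev t⟩ ⟨_, hF.axisY_mem⟩ ⟨_, m2⟩ rfl, hY ⟨_, hF.axisY_mem⟩ rfl,
      ih1 ⟨_, hev s⟩ rfl, ih2 ⟨_, hev t⟩ rfl]; rfl

theorem IsIso.refl (F : Set (Set (ℝ × ℝ))) : IsIso (Equiv.refl F) where
  compl := fun _ _ h => h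
  union := fun _ _ _ h => h
  projX := fun _ _ h => h
  projY := fun _ _ h => h
  tensor := fun _ _ _ _ _ h => h


theorem IsIso.symm {F G : Set (Set (ℝ × ℝ))} (hF : IsProjectiveAlgebra F)
    (hG : IsProjectiveAlgebra G) {φ : F ≃ G} (h : IsIso φ) : IsIso φ.symm where
  compl := fun S T hT => by
    have e := h.compl (φ.symm S) ⟨_, hF.compl_mem _ (φ.symm S).2⟩ rfl
    have e2 : φ ⟨_, hF.compl_mem _ (φ.symm S).2⟩ = T := Subtype.ext (by
      rw [e, hT, φ.apply_symm_apply])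
    rw [← e2, φ.symm_apply_apply]
  union := fun S T U hU => by
    have e := h.union (φ.symm S) (φ.symm T) ⟨_, hF.union_mem _ (φ.symm S).2 _ (φ.symm T).2⟩ rfl
    have e2 : φ ⟨_, hF.union_mem _ (φ.symm S).2 _ (φ.symm T).2⟩ = U := Subtype.ext (by
      rw [e, hU, φ.apply_symm_apply, φ.apply_symm_apply])
    rw [← e2, φ.symm_apply_apply]
  projX := fun S T hT => by
    have e := h.projX (φ.symm S) ⟨_, hF.projX_mem _ (φ.symm S).2⟩ rfl
    have e2 : φ ⟨_, hF.projX_mem _ (φ.symm S).2⟩ = T := Subtype.ext (by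
      rw [e, hT, φ.apply_symm_apply])
    rw [← e2, φ.symm_apply_apply]
  projY := fun S T hT => by
    have e := h.projY (φ.symm S) ⟨_, hF.projY_mem _ (φ.symm S).2⟩ rfl
    have e2 : φ ⟨_, hF.projY_mem _ (φ.symm S).2⟩ = T := Subtype.ext (by
      rw [e, hT, φ.apply_symm_apply])
    rw [← e2, φ.symm_apply_apply]
  tensor := fun A B C hA hB hC => by
    have key : ∀ (Z : Set (ℝ × ℝ)) (hZF : Z ∈ F) (hZG : Z ∈ G) (D : F),
        (φ ⟨Z, hZF⟩ : Set (ℝ × ℝ)) = Z → ((φ D : G) : Set (ℝ × ℝ)) ⊆ Z → (D : Set (ℝ × ℝ)) ⊆ Z := by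
      intro Z hZF hZG D h1 h2
      have e := h.union D ⟨Z, hZF⟩ ⟨_, hF.union_mem _ D.2 _ hZF⟩ rfl
      have e2 : φ ⟨_, hF.union_mem _ D.2 _ hZF⟩ = φ ⟨Z, hZF⟩ := Subtype.ext (by
        rw [e, h1, Set.union_eq_right.2 h2])
      have e3 := congrArg Subtype.val (φ.injective e2)
      simp only at e3
      exact Set.union_eq_right.1 e3
    have hev : ∀ (t : Tm 0) (hz : ev (fun i : Fin 0 => i.elim0) t ∈ F),
        (φ ⟨_, hz⟩ : Set (ℝ × ℝ)) = ev (fun i : Fin 0 => i.elim0) t := by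
      intro t hz
      have e := iso_ev hF hG φ h (fun i : Fin 0 => i.elim0) (fun i => i.elim0) t ⟨_, hz⟩ rfl
      rw [e]
      congr 1
      funext i
      exact i.elim0
    have hX : (φ ⟨axisX, hF.axisX_mem⟩ : Set (ℝ × ℝ)) = axisX := by
      have e := ev_X (fun i : Fin 0 => i.elim0)
      have e2 := hev Tm.X (by rw [e]; exact hF.axisX_mem)
      simp only [e] at e2
      exact e2
    have hY : (φ ⟨axisY, hF.axisY_mem⟩ : Set (ℝ × ℝ)) = axisY := by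
      have e := ev_Y (fun i : Fin 0 => i.elim0)
      have e2 := hev Tm.Y (by rw [e]; exact hF.axisY_mem)
      simp only [e] at e2
      exact e2
    have hA' : ((φ.symm A : F) : Set (ℝ × ℝ)) ⊆ axisX := by
      apply key axisX hF.axisX_mem hG.axisX_mem _ hX
      rw [φ.apply_symm_apply]; exact hA
    have hB' : ((φ.symm B : F) : Set (ℝ × ℝ)) ⊆ axisY := by
      apply key axisY hF.axisY_mem hG.axisY_mem _ hY
      rw [φ.apply_symm_apply]; exact hB
    have e := h.tensor (φ.symm A) (φ.symm B)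
      ⟨_, hF.tensor_mem _ (φ.symm A).2 _ (φ.symm B).2 hA' hB'⟩ hA' hB' rfl
    have e2 : φ ⟨_, hF.tensor_mem _ (φ.symm A).2 _ (φ.symm B).2 hA' hB'⟩ = C := Subtype.ext (by
      rw [e, hC, φ.apply_symm_apply, φ.apply_symm_apply])
    rw [← e2, φ.symm_apply_apply]

theorem generated_alg (G : Set (Set (ℝ × ℝ))) : IsProjectiveAlgebra (generated G) where
  empty_mem := fun _ hF => hF.1.empty_mem
  compl_mem := fun _ hS F hF => hF.1.compl_mem _ (hS F hF)
  union_mem := fun _ hS _ hT F hF => hF.1.union_mem _ (hS F hF) _ (hT F hF)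
  projX_mem := fun _ hS F hF => hF.1.projX_mem _ (hS F hF)
  projY_mem := fun _ hS F hF => hF.1.projY_mem _ (hS F hF)
  tensor_mem := fun _ hA _ hB h1 h2 F hF => hF.1.tensor_mem _ (hA F hF) _ (hB F hF) h1 h2

theorem IsIso.map_subset {F G : Set (Set (ℝ × ℝ))} {φ : F ≃ G} (h : IsIso φ) {A B : F}
    (hAB : (A : Set (ℝ × ℝ)) ⊆ B) : (φ A : Set (ℝ × ℝ)) ⊆ φ B := by
  have := h.union A B B (by rw [Set.union_eq_right.2 hAB])
  rw [this]
  exact Set.subset_union_left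

theorem IsIso.map_axes {F G : Set (Set (ℝ × ℝ))} (hF : IsProjectiveAlgebra F)
    (hG : IsProjectiveAlgebra G) {φ : F ≃ G} (h : IsIso φ) :
    (φ ⟨axisX, hF.axisX_mem⟩ : Set (ℝ × ℝ)) = axisX ∧
    (φ ⟨axisY, hF.axisY_mem⟩ : Set (ℝ × ℝ)) = axisY := by
  have hev : ∀ (t : Tm 0) (hz : ev (fun i : Fin 0 => i.elim0) t ∈ F),
      (φ ⟨_, hz⟩ : Set (ℝ × ℝ)) = ev (fun i : Fin 0 => i.elim0) t := by
    intro t hz
    have e := iso_ev hF hG φ h (fun i : Fin 0 => i.elim0) (fun i => i.elim0) t ⟨_, hz⟩ rfl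
    rw [e]
    congr 1
    funext i
    exact i.elim0
  constructor
  · have e := ev_X (fun i : Fin 0 => i.elim0)
    have e2 := hev Tm.X (by rw [e]; exact hF.axisX_mem)
    simp only [e] at e2
    exact e2
  · have e := ev_Y (fun i : Fin 0 => i.elim0)
    have e2 := hev Tm.Y (by rw [e]; exact hF.axisY_mem)
    simp only [e] at e2
    exact e2

theorem IsIso.trans {F G H : Set (Set (ℝ × ℝ))} (hF : IsProjectiveAlgebra F)
    (hG : IsProjectiveAlgebra G) {φ : F ≃ G} {ψ : G ≃ H}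
    (h : IsIso φ) (h' : IsIso ψ) : IsIso (φ.trans ψ) where
  compl := fun S T hT => h'.compl _ _ (h.compl S T hT)
  union := fun S T U hU => h'.union _ _ _ (h.union S T U hU)
  projX := fun S T hT => h'.projX _ _ (h.projX S T hT)
  projY := fun S T hT => h'.projY _ _ (h.projY S T hT)
  tensor := fun A B C hA hB hC => by
    have hax := h.map_axes hF hG
    have h1 : ((φ A : G) : Set (ℝ × ℝ)) ⊆ axisX := by
      have : ((φ A : G) : Set (ℝ × ℝ)) ⊆ φ ⟨axisX, hF.axisX_mem⟩ := h.map_subset hA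
      rwa [hax.1] at this
    have h2 : ((φ B : G) : Set (ℝ × ℝ)) ⊆ axisY := by
      have : ((φ B : G) : Set (ℝ × ℝ)) ⊆ φ ⟨axisY, hF.axisY_mem⟩ := h.map_subset hB
      rwa [hax.2] at this
    exact h'.tensor _ _ _ h1 h2 (h.tensor A B C hA hB hC)


section Lower

/-- The plane set coding a set of natural numbers. -/
def code (α : Set ℕ) : Set (ℝ × ℝ) :=
  {p | ∃ n : ℕ, p = ((n : ℝ), (n : ℝ) + 1)} ∪ {p | ∃ n : ℕ, p = ((n : ℝ) + 1, (n : ℝ) + 1)} ∪
    {p | ∃ n ∈ α, p = ((n : ℝ), 0)}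

variable {k : ℕ} (i0 : Fin k)

/-- The part of the generator off the horizontal axis. -/
def off : Tm k := (Tm.gen i0).inter (.compl .X)

/-- Terms for the points of the coding path. -/
def DE : ℕ → Tm k × Tm k
  | 0 => ((Tm.X).inter .Y, .pY ((off i0).inter (.tens ((Tm.X).inter .Y) .Y)))
  | n + 1 =>
    let D := (Tm.pX ((off i0).inter (.tens .X (DE n).2))).inter (.compl (DE n).1)
    (D, (Tm.pY ((off i0).inter (.tens D .Y))).inter (.compl (DE n).2))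

theorem ev_off (α : Set ℕ) : ev (fun _ : Fin k => code α) (off i0) =
    {p | (∃ n : ℕ, p = ((n : ℝ), (n : ℝ) + 1)) ∨ ∃ n : ℕ, p = ((n : ℝ) + 1, (n : ℝ) + 1)} := by
  rw [off, ev_inter, ev, ev, ev_X]
  ext ⟨x, y⟩
  simp only [code, axisX, Set.mem_inter_iff, Set.mem_union, Set.mem_compl_iff, Set.mem_ofPred_eq,
    Prod.mk.injEq]
  constructor
  · rintro ⟨(⟨n, h1, h2⟩ | ⟨n, h1, h2⟩) | ⟨n, -, h1, h2⟩, h⟩
    · exact Or.inl ⟨n, h1, h2⟩
    · exact Or.inr ⟨n, h1, h2⟩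
    · exact absurd h2 h
  · rintro (⟨n, h1, h2⟩ | ⟨n, h1, h2⟩)
    · refine ⟨Or.inl (Or.inl ⟨n, h1, h2⟩), ?_⟩
      rw [h2]; positivity
    · refine ⟨Or.inl (Or.inr ⟨n, h1, h2⟩), ?_⟩
      rw [h2]; positivity

theorem ev_XY (S : Fin k → Set (ℝ × ℝ)) : ev S ((Tm.X).inter Tm.Y) = {((0 : ℝ), (0 : ℝ))} := by
  rw [ev_inter, ev_X, ev_Y]
  ext ⟨x, y⟩
  simp only [axisX, axisY, Set.mem_inter_iff, Set.mem_ofPred_eq, Set.mem_singleton_iff,
    Prod.mk.injEq]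
  tauto

theorem ev_col (S : Fin k → Set (ℝ × ℝ)) (D : Tm k) (a : ℝ) (hD : ev S D = {(a, (0 : ℝ))}) :
    ev S (.tens D .Y) = {p | p.1 = a} := by
  rw [ev, hD, ev_Y]
  ext ⟨x, y⟩
  simp [tensor, axisX, axisY]

theorem ev_row (S : Fin k → Set (ℝ × ℝ)) (E : Tm k) (b : ℝ) (hE : ev S E = {((0 : ℝ), b)}) :
    ev S (.tens .X E) = {p | p.2 = b} := by
  rw [ev, hE, ev_X]
  ext ⟨x, y⟩
  simp [tensor, axisX, axisY]

theorem ev_DE (α : Set ℕ) (n : ℕ) :
    ev (fun _ : Fin k => code α) (DE i0 n).1 = {((n : ℝ), (0 : ℝ))} ∧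
    ev (fun _ : Fin k => code α) (DE i0 n).2 = {((0 : ℝ), (n : ℝ) + 1)} := by
  induction n with
  | zero =>
    refine ⟨?_, ?_⟩
    · simp only [DE, ev_XY, Nat.cast_zero]
    · simp only [DE]
      rw [ev, ev_inter, ev_off, ev_col _ _ 0 (ev_XY _)]
      ext ⟨x, y⟩
      simp only [projY, Set.mem_inter_iff, Set.mem_ofPred_eq, Set.mem_singleton_iff,
        Prod.mk.injEq, Nat.cast_zero, zero_add]
      constructor
      · rintro ⟨rfl, x, (⟨n, h1, h2⟩ | ⟨n, h1, h2⟩), rfl⟩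
        · refine ⟨rfl, ?_⟩
          rw [h2, ← h1]; ring
        · exfalso
          have : (0 : ℝ) < (n : ℝ) + 1 := by positivity
          linarith
      · rintro ⟨rfl, rfl⟩
        exact ⟨rfl, 0, Or.inl ⟨0, by simp, by simp⟩, rfl⟩
  | succ n ih =>
    have hD : ev (fun _ : Fin k => code α) (DE i0 (n+1)).1 = {(((n + 1 : ℕ) : ℝ), (0 : ℝ))} := by
      simp only [DE]
      rw [ev_inter, ev_pX, ev_inter, ev_off, ev_row _ _ _ ih.2, ev_compl, ih.1]
      ext ⟨x, y⟩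
      simp only [projX, Set.mem_inter_iff, Set.mem_ofPred_eq, Set.mem_singleton_iff,
        Prod.mk.injEq, Set.mem_compl_iff]
      constructor
      · rintro ⟨⟨rfl, y, (⟨m, h1, h2⟩ | ⟨m, h1, h2⟩), h3⟩, h4⟩
        · exfalso
          apply h4
          refine ⟨?_, rfl⟩
          rw [h1]
          linarith
        · refine ⟨?_, rfl⟩
          rw [h1]
          push_cast
          linarith
      · rintro ⟨rfl, rfl⟩
        refine ⟨⟨rfl, (n : ℝ) + 1, Or.inr ⟨n, by push_cast; ring, rfl⟩, rfl⟩, ?_⟩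
        rintro ⟨h, -⟩
        push_cast at h
        linarith
    refine ⟨hD, ?_⟩
    have hE : (DE i0 (n+1)).2 =
        (Tm.pY ((off i0).inter (.tens (DE i0 (n+1)).1 .Y))).inter (.compl (DE i0 n).2) := rfl
    rw [hE, ev_inter, ev_pY, ev_inter, ev_off, ev_col _ _ _ hD, ev_compl, ih.2]
    ext ⟨x, y⟩
    simp only [projY, Set.mem_inter_iff, Set.mem_ofPred_eq, Set.mem_singleton_iff,
      Prod.mk.injEq, Set.mem_compl_iff]
    constructor
    · rintro ⟨⟨rfl, x, (⟨m, h1, h2⟩ | ⟨m, h1, h2⟩), h3⟩, h4⟩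
      · refine ⟨rfl, ?_⟩
        rw [h2, ← h1, h3]
      · exfalso
        apply h4
        refine ⟨rfl, ?_⟩
        rw [h2, ← h1, h3]
        push_cast
        ring
    · rintro ⟨rfl, rfl⟩
      refine ⟨⟨rfl, ((n + 1 : ℕ) : ℝ), Or.inl ⟨n + 1, rfl, rfl⟩, rfl⟩, ?_⟩
      rintro ⟨-, h⟩
      push_cast at h
      linarith

theorem ev_test (α : Set ℕ) (n : ℕ) :
    ev (fun _ : Fin k => code α) ((DE i0 n).1.inter (.gen i0)) = ∅ ↔ n ∉ α := by
  rw [ev_inter, (ev_DE i0 α n).1, ev]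
  constructor
  · intro h hn
    have : ((n : ℝ), (0 : ℝ)) ∈ ({((n : ℝ), (0 : ℝ))} ∩ code α : Set (ℝ × ℝ)) :=
      ⟨rfl, Or.inr ⟨n, hn, rfl⟩⟩
    rw [h] at this
    exact this
  · intro hn
    rw [Set.eq_empty_iff_forall_notMem]
    rintro ⟨x, y⟩ ⟨h1, h2⟩
    simp only [Set.mem_singleton_iff, Prod.mk.injEq] at h1
    obtain ⟨rfl, rfl⟩ := h1
    simp only [code, Set.mem_union, Set.mem_ofPred_eq, Prod.mk.injEq] at h2
    rcases h2 with (⟨m, h1, h2⟩ | ⟨m, h1, h2⟩) | ⟨m, hm, h1, -⟩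
    · have : (0 : ℝ) < (m : ℝ) + 1 := by positivity
      linarith
    · have : (0 : ℝ) < (m : ℝ) + 1 := by positivity
      linarith
    · have : n = m := by exact_mod_cast h1
      exact hn (this ▸ hm)

include i0 in
theorem code_th (α β : Set ℕ) (h : Th (fun _ : Fin k => code α) = Th (fun _ : Fin k => code β)) :
    α = β := by
  ext n
  have h1 : (((DE i0 n).1.inter (.gen i0)), Tm.empty) ∈ Th (fun _ : Fin k => code α) ↔
      (((DE i0 n).1.inter (.gen i0)), Tm.empty) ∈ Th (fun _ : Fin k => code β) := by rw [h]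
  have h2 := ev_test i0 α n
  have h3 := ev_test i0 β n
  simp only [Th, Set.mem_ofPred_eq] at h1
  have h4 : ∀ γ : Set ℕ, ev (fun _ : Fin k => code γ) Tm.empty = ∅ := fun _ => rfl
  rw [h4, h4] at h1
  tauto

end Lower

/-- Isomorphic generated algebras: the theory of the source tuple is the theory of its image. -/
theorem th_of_iso {k : ℕ} {F G : Set (Set (ℝ × ℝ))} (hF : IsProjectiveAlgebra F)
    (hG : IsProjectiveAlgebra G) (φ : F ≃ G) (hφ : IsIso φ) (S : Fin k → Set (ℝ × ℝ))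
    (hS : ∀ i, S i ∈ F) :
    Th S = Th (fun i => (φ ⟨S i, hS i⟩ : Set (ℝ × ℝ))) := by
  have hev : ∀ t, ev S t ∈ F := ev_mem S hF (by rintro _ ⟨i, rfl⟩; exact hS i)
  ext ⟨s, t⟩
  simp only [Th, Set.mem_ofPred_eq]
  rw [← iso_ev hF hG φ hφ S hS s ⟨_, hev s⟩ rfl, ← iso_ev hF hG φ hφ S hS t ⟨_, hev t⟩ rfl]
  constructor
  · intro h
    congr 2
    exact Subtype.ext h
  · intro h
    exact congrArg Subtype.val (φ.injective (Subtype.ext h))

end Pool.Agent.Helper63.ProjAlg
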