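import Mathlib
import Pool.Agent.Helper63.ProjAlg.Basic

namespace Pool.Agent.Helper63.ProjAlg

/-- The projective algebras generated by `k` subsets of the plane. -/
def KGenerated (k : ℕ) : Type :=
  {F : Set (Set (ℝ × ℝ)) // ∃ S : Fin k → Set (ℝ × ℝ), F = generated (Set.range S)}

theorem KGenerated.alg {k : ℕ} (F : KGenerated k) : IsProjectiveAlgebra F.1 := by
  obtain ⟨S, hS⟩ := F.2
  rw [hS]
  exact generated_alg _

/-- Isomorphism of projective algebras generated by `k` subsets of the plane. -/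
instance isoSetoid (k : ℕ) : Setoid (KGenerated k) where
  r F G := ∃ φ : F.1 ≃ G.1, IsIso φ
  iseqv := {
    refl := fun _ => ⟨Equiv.refl _, IsIso.refl _⟩
    symm := fun {F G} ⟨φ, h⟩ => ⟨φ.symm, h.symm F.alg G.alg⟩
    trans := fun {F G _} ⟨φ, h⟩ ⟨ψ, h'⟩ => ⟨φ.trans ψ, h.trans F.alg G.alg h'⟩ }


/-- The number of isomorphism classes of projective algebras generated by `k` plane sets. -/
noncomputable def numClasses (k : ℕ) : Cardinal.{0} := Cardinal.mk (Quotient (isoSetoid k))

end Pool.Agent.Helper63.ProjAlg
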