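import Mathlib
import Pool.Agent.Helper63.ProjAlg.Classes

namespace Pool.Agent.Helper63.ProjAlg

theorem upper (k : ℕ) : numClasses k ≤ Cardinal.continuum := by
  have hrep : ∀ q : Quotient (isoSetoid k), ∃ S : Fin k → Set (ℝ × ℝ),
      q = ⟦⟨generated (Set.range S), S, rfl⟩⟧ := by
    intro q
    induction q using Quotient.inductionOn with
    | _ F =>
      obtain ⟨F, S, rfl⟩ := F
      exact ⟨S, rfl⟩
  choose S hS using hrep
  have hinj : Function.Injective (fun q => Th (S q)) := by
    intro q q' h
    obtain ⟨φ, hφ⟩ := exists_iso_of_th (S q) (S q') h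
    rw [hS q, hS q']
    apply Quotient.sound
    change ∃ φ : (generated (Set.range (S q))) ≃ (generated (Set.range (S q'))), IsIso φ
    rw [generated_eq, generated_eq]
    exact ⟨φ, hφ⟩
  calc numClasses k ≤ Cardinal.mk (Set (Tm k × Tm k)) := Cardinal.mk_le_of_injective hinj
    _ = 2 ^ Cardinal.mk (Tm k × Tm k) := Cardinal.mk_set
    _ ≤ 2 ^ Cardinal.aleph0 := Cardinal.power_le_power_left two_ne_zero Cardinal.mk_le_aleph0
    _ = Cardinal.continuum := Cardinal.two_power_aleph0

theorem lower (k : ℕ) (hk : 0 < k) : Cardinal.continuum ≤ numClasses k := by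
  let i0 : Fin k := ⟨0, hk⟩
  let f : Set ℕ → Quotient (isoSetoid k) := fun α =>
    ⟦⟨generated (Set.range fun _ : Fin k => code α), _, rfl⟩⟧
  have hfib : ∀ q, Cardinal.mk {α // f α = q} ≤ Cardinal.aleph0 := by
    intro q
    by_cases hne : ∃ β, f β = q
    · obtain ⟨β, rfl⟩ := hne
      let G : Set (Set (ℝ × ℝ)) := generated (Set.range fun _ : Fin k => code β)
      have hG : IsProjectiveAlgebra G := generated_alg _
      have hGc : Countable G := by
        have : G = Set.range (ev fun _ : Fin k => code β) := generated_eq _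
        rw [this]
        exact (Set.countable_range _).to_subtype
      have hex : ∀ α : {α // f α = f β}, ∃ T : G,
          Th (fun _ : Fin k => code α.1) = Th (fun _ : Fin k => (T : Set (ℝ × ℝ))) := by
        rintro ⟨α, hα⟩
        obtain ⟨φ, hφ⟩ : ∃ φ : (generated (Set.range fun _ : Fin k => code α)) ≃ G, IsIso φ :=
          Quotient.exact hα
        have hmem : code α ∈ generated (Set.range fun _ : Fin k => code α) :=
          fun F hF => hF.2 ⟨i0, rfl⟩
        exact ⟨φ ⟨code α, hmem⟩, th_of_iso (generated_alg _) hG φ hφ (fun _ => code α)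
          (fun _ => hmem)⟩
      choose T hT using hex
      have hinj : Function.Injective T := by
        intro α α' h
        apply Subtype.ext
        apply code_th i0
        rw [hT α, hT α', h]
      exact (Cardinal.mk_le_of_injective hinj).trans Cardinal.mk_le_aleph0
    · have : IsEmpty {α // f α = q} := ⟨fun α => hne ⟨α.1, α.2⟩⟩
      exact Cardinal.mk_le_aleph0
  by_contra hcon
  push Not at hcon
  have h1 : Cardinal.continuum ≤ numClasses k * Cardinal.aleph0 := by
    calc Cardinal.continuum = Cardinal.mk (Set ℕ) := Cardinal.mk_set_nat.symm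
      _ = Cardinal.mk (Σ q, {α // f α = q}) := (Cardinal.mk_congr (Equiv.sigmaFiberEquiv f)).symm
      _ = Cardinal.sum fun q => Cardinal.mk {α // f α = q} := Cardinal.mk_sigma _
      _ ≤ Cardinal.sum fun _ : Quotient (isoSetoid k) => Cardinal.aleph0 :=
        Cardinal.sum_le_sum _ _ hfib
      _ = numClasses k * Cardinal.aleph0 := Cardinal.sum_const' _ _
  have h2 : numClasses k * Cardinal.aleph0 < Cardinal.continuum := by
    refine lt_of_le_of_lt (Cardinal.mul_le_max _ _) ?_
    simp [hcon, Cardinal.aleph0_lt_continuum]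
  exact absurd h1 (not_le.2 h2)

theorem numClasses_eq : ∀ k : ℕ, 0 < k → numClasses k = Cardinal.continuum :=
  fun k hk => le_antisymm (upper k) (lower k hk)

end Pool.Agent.Helper63.ProjAlg
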